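import Mathlib

set_option autoImplicit false

namespace Pool.Agent.Results.MP_a93e77_co.Counter

/-- `P` is an isomorphism-permutation of `G`: an isomorphism from `G` onto its complement. -/
def IsoPerm {V : Type} (G : SimpleGraph V) (P : Equiv.Perm V) : Prop :=
  ∀ u v, u ≠ v → (G.Adj u v ↔ ¬ G.Adj (P u) (P v))

/-- `F(G) = V(G)`. -/
def FAll {V : Type} (G : SimpleGraph V) : Prop := ∀ v, ∃ P, IsoPerm G P ∧ P v = v

/-- `N(G) = E(G)`. -/
def NAll {V : Type} (G : SimpleGraph V) : Prop :=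
  ∀ u v, G.Adj u v → ∃ P, IsoPerm G P ∧ (P u = v ∨ P v = u)

/-- Every edge lies in the same number of triangles, and every two distinct nonadjacent vertices
have the same number of common neighbours. -/
def StronglyRegular {V : Type} (G : SimpleGraph V) : Prop :=
  (∃ l : ℕ, ∀ u v, G.Adj u v → (G.commonNeighbors u v).ncard = l) ∧
    ∃ m : ℕ, ∀ u v, u ≠ v → ¬ G.Adj u v → (G.commonNeighbors u v).ncard = m

def adj (u v : Fin 13) : Bool := [1, 2, 4, 9, 11, 12].contains (u - v).val

def G13 : SimpleGraph (Fin 13) where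
  Adj u v := adj u v = true
  symm := ⟨by decide⟩
  loopless := ⟨by decide⟩

instance : DecidableRel G13.Adj := fun u v => inferInstanceAs (Decidable (adj u v = true))

lemma linv : ∀ b x : Fin 13, 8 * (5 * x + b - b) = x := by decide +kernel

lemma rinv : ∀ b x : Fin 13, 5 * (8 * (x - b)) + b = x := by decide +kernel

def Pb (b : Fin 13) : Equiv.Perm (Fin 13) where
  toFun x := 5 * x + b
  invFun x := 8 * (x - b)
  left_inv := linv b
  right_inv := rinv b

lemma hiso : ∀ b u v : Fin 13, u ≠ v → (G13.Adj u v ↔ ¬ G13.Adj (5 * u + b) (5 * v + b)) := by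
  decide +kernel

lemma hsol : ∀ u v : Fin 13, ∃ b, 5 * u + b = v := by decide +kernel

lemma cn (u v : Fin 13) : (G13.commonNeighbors u v).ncard =
    (Finset.univ.filter fun w => G13.Adj u w ∧ G13.Adj v w).card := by
  rw [← Set.ncard_coe_finset]
  congr 1
  ext w
  simp [SimpleGraph.mem_commonNeighbors]

theorem result :
    ∃ G : SimpleGraph (Fin 13), (∀ u, (G.neighborSet u).ncard = 6) ∧ Nonempty (G ≃g Gᶜ) ∧
      FAll G ∧ NAll G ∧ ¬ StronglyRegular G := by
  refine ⟨G13, fun u => ?_, ⟨⟨Pb 0, ?_⟩⟩, fun v => ?_, fun u v _ => ?_, ?_⟩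
  · rw [← SimpleGraph.coe_neighborFinset, Set.ncard_coe_finset]
    revert u; decide +kernel
  · intro a b
    rw [SimpleGraph.compl_adj]
    change (5 * a + 0 ≠ 5 * b + 0 ∧ ¬ G13.Adj (5 * a + 0) (5 * b + 0)) ↔ _
    revert a b; decide +kernel
  · obtain ⟨b, hb⟩ := hsol v v
    exact ⟨Pb b, hiso b, hb⟩
  · obtain ⟨b, hb⟩ := hsol u v
    exact ⟨Pb b, hiso b, Or.inl hb⟩
  · rintro ⟨⟨l, hl⟩, -⟩
    have h1 := hl 0 1 (by decide)
    have h2 := hl 0 2 (by decide)
    have h3 := hl 0 4 (by decide)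
    rw [cn] at h1 h2 h3
    have h4 := h1.trans h2.symm
    have h5 := h1.trans h3.symm
    revert h4 h5
    decide +kernel

end Pool.Agent.Results.MP_a93e77_co.Counter
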